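import Pool.Agent.W93.CU1

/-!
# The median inequality for the sum-of-digits measures `P_t`

`P_1 = δ_0`, `P_{2n} = P_n`, `P_{2n+1}(d) = P_n(d-1)/2 + P_{n+1}(d+1)/2`.  For every `t ≥ 1` the mass
of `ℕ = {0, 1, 2, ...}` under `P_t` is at least `1/2`.

`P_t` (for odd `t ≥ 3`) is the law of a simple random walk stopped at the first time at which the
word of its steps is no longer a (scattered) subword of the word of the inner binary digits of `t`.
Counting the visits to `0`, `-1` gives `P_t({d < 0}) = (L_0 - L_{-1}) / 2` where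
`L_0 = ∑ 4^{-k} N(k,k)` and `L_{-1} = ∑ 2^{-(2k+1)} N(k,k+1)`, and deleting one letter from a random
word shows `N(k+1,k+1) ≤ 2 N(k,k+1)` for the numbers `N(i,j)` of subwords with `i` ones and
`j` zeros.
-/

set_option autoImplicit false

namespace Pool.Agent.Y950.MED

open W93.CU

/-- the number with lower binary digits `w` (lowest digit first) and a leading one -/
def num : List Bool → ℕ
  | [] => 1
  | true :: w => 2 * num w + 1
  | false :: w => 2 * num w

lemma num_pos (w : List Bool) : 1 ≤ num w := by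
  induction w with
  | nil => exact le_rfl
  | cons b w ih => cases b <;> simp only [num] <;> omega

lemma exists_num : ∀ n t : ℕ, t ≤ n → 1 ≤ t → ∃ w, num w = t := by
  intro n
  induction n with
  | zero => intro t h1 h2; omega
  | succ n ih =>
    intro t h1 h2
    rcases Nat.even_or_odd' t with ⟨m, rfl | rfl⟩
    · obtain ⟨w, hw⟩ := ih m (by omega) (by omega)
      exact ⟨false :: w, by simp [num, hw]⟩
    · rcases Nat.eq_zero_or_pos m with rfl | hm
      · exact ⟨[], rfl⟩
      · obtain ⟨w, hw⟩ := ih m (by omega) hm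
        exact ⟨true :: w, by simp [num, hw]⟩

lemma hasSum_one0 (P : ℤ → ℝ) (h1 : ∀ d, P d = if d = 0 then 1 else 0) (k : ℤ) :
    HasSum (fun j : ℕ => P (k + j)) (one0 k) := by
  unfold one0
  by_cases hk : k ≤ 0
  · rw [if_pos hk]
    have h : P (k + ((-k).toNat : ℕ)) = 1 := by
      rw [h1, if_pos]
      omega
    rw [← h]
    refine hasSum_single _ fun j hj => ?_
    rw [h1, if_neg]
    omega
  · rw [if_neg hk]
    have : (fun j : ℕ => P (k + j)) = fun _ => 0 := by
      funext j
      rw [h1, if_neg]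
      omega
    rw [this]
    exact hasSum_zero

lemma hasSum_tail (P : ℕ → ℤ → ℝ) (h1 : ∀ d, P 1 d = if d = 0 then 1 else 0)
    (heven : ∀ n, 1 ≤ n → ∀ d, P (2 * n) d = P n d)
    (hodd : ∀ n, 1 ≤ n → ∀ d, P (2 * n + 1) d = P n (d - 1) / 2 + P (n + 1) (d + 1) / 2)
    (w : List Bool) : ∀ k : ℤ,
    HasSum (fun j : ℕ => P (num w) (k + j)) ((tl one0 one0 w).1 k) ∧
    HasSum (fun j : ℕ => P (num w + 1) (k + j)) ((tl one0 one0 w).2 k) := by
  have mid : ∀ v : List Bool, (∀ k : ℤ,
      HasSum (fun j : ℕ => P (num v) (k + j)) ((tl one0 one0 v).1 k) ∧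
      HasSum (fun j : ℕ => P (num v + 1) (k + j)) ((tl one0 one0 v).2 k)) → ∀ k : ℤ,
      HasSum (fun j : ℕ => P (2 * num v + 1) (k + j))
        ((tl one0 one0 v).1 (k - 1) / 2 + (tl one0 one0 v).2 (k + 1) / 2) := by
    intro v ih k
    have a := (ih (k - 1)).1.div_const 2
    have b := (ih (k + 1)).2.div_const 2
    have c := a.add b
    have e : (fun j : ℕ => P (2 * num v + 1) (k + j)) =
        fun j : ℕ => P (num v) (k - 1 + j) / 2 + P (num v + 1) (k + 1 + j) / 2 := by
      funext j
      rw [hodd _ (num_pos v), show k + (j:ℤ) - 1 = k - 1 + j by ring,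
        show k + (j:ℤ) + 1 = k + 1 + j by ring]
    rw [e]
    exact c
  induction w with
  | nil =>
    intro k
    refine ⟨hasSum_one0 (P 1) h1 k, ?_⟩
    have h2 : ∀ d, P (1 + 1) d = if d = 0 then 1 else 0 := by
      intro d
      rw [← h1 d]
      exact heven 1 le_rfl d
    exact hasSum_one0 (P (1 + 1)) h2 k
  | cons b w ih =>
    intro k
    cases b with
    | true =>
      refine ⟨mid w ih k, ?_⟩
      have e : (fun j : ℕ => P (num (true :: w) + 1) (k + j)) =
          fun j : ℕ => P (num w + 1) (k + j) := by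
        funext j
        rw [← heven (num w + 1) (by omega)]
        rfl
      rw [e]
      exact (ih k).2
    | false =>
      refine ⟨?_, mid w ih k⟩
      have e : (fun j : ℕ => P (num (false :: w)) (k + j)) = fun j : ℕ => P (num w) (k + j) := by
        funext j
        exact heven (num w) (num_pos w) _
      rw [e]
      exact (ih k).1

/-- tails of the measures of all words are at least one half at zero -/
lemma half_le (w : List Bool) : 1 / 2 ≤ (tl one0 one0 w).1 0 := by
  induction w with
  | nil =>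
    show 1 / 2 ≤ one0 0
    norm_num [one0]
  | cons b w ih =>
    cases b with
    | true => exact median_odd w
    | false => exact ih

/-- **The median inequality.** Let `P_1 = δ_0`, `P_{2n} = P_n` and
`P_{2n+1}(d) = P_n(d-1)/2 + P_{n+1}(d+1)/2` for `n ≥ 1`.  Then `P_t(ℕ) ≥ 1/2` for every `t ≥ 1`. -/
theorem median (P : ℕ → ℤ → ℝ) (h1 : ∀ d, P 1 d = if d = 0 then 1 else 0)
    (heven : ∀ n, 1 ≤ n → ∀ d, P (2 * n) d = P n d)
    (hodd : ∀ n, 1 ≤ n → ∀ d, P (2 * n + 1) d = P n (d - 1) / 2 + P (n + 1) (d + 1) / 2) :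
    ∀ t : ℕ, 1 ≤ t → 1 / 2 ≤ ∑' d : ℕ, P t d := by
  intro t ht
  obtain ⟨w, rfl⟩ := exists_num t t le_rfl ht
  have h := (hasSum_tail P h1 heven hodd w 0).1
  simp only [zero_add] at h
  rw [h.tsum_eq]
  exact half_le w

end Pool.Agent.Y950.MED
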